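import Pool.Agent.TH882.R9

/-!
Consecutive primes in patterns taken from any large admissible set, together with any number of
further primes at prescribed distances, for almost all vectors of distances.
-/

set_option autoImplicit false

open Finset Filter Topology

namespace Pool.Agent.Results.MP_3ec731_nt.ExactPatternsPlusAverage

/-- `A` is admissible: for every prime `l` some residue class modulo `l` is not met by `A`. -/
def Admissible (A : Finset ℕ) : Prop := ∀ l : ℕ, l.Prime → ∃ n : ℤ, ∀ a ∈ A, ¬ (l : ℤ) ∣ n + a

/-- All `n + h`, `h ∈ H`, are prime, and no other integer between `n + min H` and `n + max H` is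
prime. (If `h` is the least element of `H`, then `n + h` realises `H - h` as consecutive primes.) -/
def Consecutive (H : Finset ℕ) (n : ℕ) : Prop := (∀ h ∈ H, (n + h).Prime) ∧
  ∀ w, (∃ h ∈ H, h ≤ w) → (∃ h ∈ H, w ≤ h) → (n + w).Prime → w ∈ H

/-- The number of the integers `1 ≤ n ≤ x` for which the `n + h`, `h ∈ H`, are consecutive primes and
all `n + k j` are prime. -/
noncomputable def count {r : ℕ} (H : Finset ℕ) (k : Fin r → ℕ) (x : ℕ) : ℕ :=
  {n : ℕ | (1 ≤ n ∧ n ≤ x) ∧ Consecutive H n ∧ ∀ j, (n + k j).Prime}.ncard

/-- The vectors `k` with all `1 ≤ k j ≤ κ x` for which the union of `A` and of the set of the `k j` is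
admissible, but such that for no subset `H` of `A` with `m` elements the count is at least
`x / (log x) ^ D`. -/
def exceptions (A : Finset ℕ) (m r D κ x : ℕ) : Set (Fin r → ℕ) :=
  {k : Fin r → ℕ | (∀ j, 1 ≤ k j ∧ k j ≤ κ * x) ∧ Admissible (A ∪ (univ : Finset (Fin r)).image k) ∧
    ¬ ∃ H ⊆ A, H.card = m ∧ (x : ℝ) / Real.log x ^ D ≤ (count H k x : ℝ)}

/-- **Patterns of consecutive primes and further primes at almost all distances.** For every `m` there
is `K` such that for every `r` and every set `A` of at least `K` nonnegative integers there is `D` with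
the following property, for every `κ`. For all vectors `k` of positive integers `k j ≤ κ x`, `j < r`,
for which the union of `A` and of the set of the `k j` is admissible, with at most `o(x ^ r)`
exceptions, there is a subset `H` of `A` with `m` elements such that for at least `x / (log x) ^ D`
integers `1 ≤ n ≤ x` the `m` numbers `n + h`, `h ∈ H`, are consecutive primes and moreover
`n + k 0, …, n + k (r - 1)` are primes. -/
theorem result (m : ℕ) : ∃ K : ℕ, ∀ (r : ℕ) (A : Finset ℕ), K ≤ A.card → ∃ D : ℕ, ∀ κ : ℕ,
    Tendsto (fun x : ℕ => ((exceptions A m r D κ x).ncard : ℝ) / (x : ℝ) ^ r) atTop (𝓝 0) := by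
  classical
  obtain ⟨K, hK, hfin⟩ := Pool.Agent.TH882.RQ.finQ m
  refine ⟨4 * (m + 1) * K, ?_⟩
  intro r A hA
  obtain ⟨A', hA'1, hA'2⟩ := exists_subset_card_eq hA
  set U : Finset ℕ := A'.image (· + 1) with hU
  have hinj1 : Function.Injective (fun a : ℕ => a + 1) := fun a b hab => by simpa using hab
  have hUc : U.card = 4 * (m + 1) * K := by
    rw [hU, card_image_of_injective _ hinj1, hA'2]
  set g : Fin r → Polynomial ℤ := fun _ => Polynomial.X with hg
  have hgd : ∀ j, (g j).natDegree = 1 := fun j => Polynomial.natDegree_X
  obtain ⟨D, h⟩ := hfin g (fun j => (hgd j).ge) (fun j => by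
    rw [hg]
    simp only
    rw [Polynomial.leadingCoeff_X]
    exact one_pos) U hUc (by
    intro u hu
    rw [hU, mem_image] at hu
    obtain ⟨a, -, rfl⟩ := hu
    omega)
  refine ⟨D, fun κ => ?_⟩
  have hsq : ∀ᶠ x : ℕ in atTop, ((exceptions A m r D κ x).ncard : ℝ) / (x : ℝ) ^ r ≤
      ((Pool.Agent.TH882.RQ.ExQ g U m D (κ + 1) x).card : ℝ) / ∏ j, (x : ℝ) ^ (g j).natDegree := by
    filter_upwards [eventually_ge_atTop 1] with x hx
    have e0 : ∏ j, (x : ℝ) ^ (g j).natDegree = (x : ℝ) ^ r := by
      rw [prod_congr rfl fun j _ => by rw [hgd j, pow_one]]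
      simp
    rw [e0]
    apply div_le_div_of_nonneg_right _ (by positivity)
    apply Nat.cast_le.2
    set f : (Fin r → ℕ) → (Fin r → ℕ) := fun k j => k j + 1 with hf
    have hfinj : Function.Injective f := by
      intro a b hab
      funext j
      have := congrFun hab j
      simpa [hf] using this
    rw [← Set.ncard_image_of_injective _ hfinj, ← Set.ncard_coe_finset]
    apply Set.ncard_le_ncard _ (finite_toSet _)
    rintro _ ⟨k, hk, rfl⟩
    unfold exceptions at hk
    rw [Set.mem_setOf_eq] at hk
    obtain ⟨h1, h2, h3⟩ := hk
    unfold Pool.Agent.TH882.RQ.ExQ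
    rw [mem_coe, mem_filter, Fintype.mem_piFinset]
    refine ⟨?_, ?_, ?_⟩
    · intro j
      rw [mem_Icc, hgd j, pow_one]
      have e1 := h1 j
      have e2 : (κ + 1) * x = κ * x + x := by ring
      rw [e2, hf]
      simp only
      omega
    · intro l hl
      obtain ⟨n, hn⟩ := h2 l hl
      refine ⟨n - 1, ?_, ?_⟩
      · intro u hu
        rw [hU, mem_image] at hu
        obtain ⟨a, ha, rfl⟩ := hu
        have e1 := hn a (mem_union_left _ (hA'1 ha))
        have e2 : n - 1 + ((a + 1 : ℕ) : ℤ) = n + a := by
          push_cast
          ring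
        rw [e2]
        exact e1
      · intro j
        have e1 := hn (k j) (mem_union_right _ (mem_image_of_mem _ (mem_univ j)))
        have e2 : ((f k j : ℕ) : ℤ) + 1 * (g j).eval (n - 1) = n + k j := by
          rw [hg, hf]
          simp only [Polynomial.eval_X]
          push_cast
          ring
        rw [e2]
        exact e1
    · rintro ⟨H, hH1, hH2, hH3⟩
      apply h3
      set H' : Finset ℕ := A'.filter (fun a => a + 1 ∈ H) with hH'
      have hHH' : H = H'.image (· + 1) := by
        ext u
        rw [mem_image]
        constructor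
        · intro hu
          have e1 := hH1 hu
          rw [hU, mem_image] at e1
          obtain ⟨a, ha, rfl⟩ := e1
          exact ⟨a, by rw [hH', mem_filter]; exact ⟨ha, hu⟩, rfl⟩
        · rintro ⟨a, ha, rfl⟩
          rw [hH', mem_filter] at ha
          exact ha.2
      refine ⟨H', (filter_subset _ _).trans hA'1, ?_, hH3.trans ?_⟩
      · rw [← hH2, hHH', card_image_of_injective _ hinj1]
      · apply Nat.cast_le.2
        unfold count
        rw [← card_image_of_injective _ hinj1, ← Set.ncard_coe_finset]
        apply Set.ncard_le_ncard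
        · intro n hn
          rw [mem_coe, mem_image] at hn
          obtain ⟨n', hn', rfl⟩ := hn
          unfold Pool.Agent.TH882.RQ.CQ at hn'
          rw [mem_filter, mem_Ico] at hn'
          obtain ⟨e1, ⟨e2, e3⟩, e4⟩ := hn'
          rw [Set.mem_setOf_eq]
          refine ⟨by omega, ⟨?_, ?_⟩, ?_⟩
          · intro a ha
            have e5 := e2 (a + 1) (by rw [hHH']; exact mem_image_of_mem _ ha)
            have e6 : n' + 1 + a = n' + (a + 1) := by ring
            rw [e6]
            exact e5
          · rintro w ⟨a, ha, haw⟩ ⟨c, hc, hwc⟩ hp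
            have e6 : n' + (w + 1) = n' + 1 + w := by ring
            have e5 := e3 (w + 1) ⟨a + 1, by rw [hHH']; exact mem_image_of_mem _ ha, by omega⟩
              ⟨c + 1, by rw [hHH']; exact mem_image_of_mem _ hc, by omega⟩ (by rw [e6]; exact hp)
            rw [hHH', mem_image] at e5
            obtain ⟨w', hw', he⟩ := e5
            have : w' = w := by simpa using he
            rwa [← this]
          · intro j
            have e5 := e4 j
            have e6 : ((f k j : ℕ) : ℤ) + 1 * (g j).eval (n' : ℤ) = ((n' + 1 + k j : ℕ) : ℤ) := by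
              rw [hg, hf]
              simp only [Polynomial.eval_X]
              push_cast
              ring
            rw [e6, Int.toNat_natCast] at e5
            exact e5
        · apply (finite_toSet (Icc 1 x)).subset
          intro n hn
          rw [Set.mem_setOf_eq] at hn
          rw [mem_coe, mem_Icc]
          exact hn.1
  exact tendsto_of_tendsto_of_tendsto_of_le_of_le' tendsto_const_nhds (h (κ + 1))
    (Eventually.of_forall fun x => by positivity) hsq

end Pool.Agent.Results.MP_3ec731_nt.ExactPatternsPlusAverage
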