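import Pool.Agent.TH29.GO.Primes
import Pool.Agent.H362R2.CM.Final

set_option autoImplicit false

/-!
# Orderings of consecutive prime gaps

For every ordering of three consecutive prime gaps, for every pattern of rises and falls of four
consecutive prime gaps, and for twelve orderings of `k >= 4` consecutive prime gaps there are
infinitely many blocks of consecutive primes, of bounded length, all in a given residue class, whose
gaps are ordered in this way; moreover every gap is larger than any prescribed function `F` of each
gap which has to be smaller.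

Method.  The coloured Maynard-Tao theorem (`Pool.Agent.H362R2.CM.quarter`, with exact patterns:
`Pool.Agent.H732R3.HausQ.exact_Q`) produces primes exactly at a set of positions which we do not
know, apart from the fact that it contains positions of at least a quarter of the colours.  The
positions are arranged in 24 groups of many colours.  All distances inside a group are of rapidly
growing (or shrinking) size, and the sizes used in the different groups and the sizes of the distances
of the groups are separated and ordered in one of three ways.  Looking at the last points of the first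
group with many points and the next two points, or at the first gap inside a group after it, or at
the first points of the second group with many points and the two points before it, the order pattern
does not depend on the unknown set.
-/

namespace Pool.Agent.Results.MP_3ec731_nt.GapOrderPatterns

/-- The gap after the `m`-th prime, `Nat.nth Nat.Prime m` (counting from `0`). -/
noncomputable def gap (m : ℕ) : ℕ := Nat.nth Nat.Prime (m + 1) - Nat.nth Nat.Prime m

/-- `Occurs lt`: for every function `F` and every residue class `a` modulo `q` prime to `q` there is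
`C` such that for infinitely many `n` the `k + 1` consecutive primes number `n, …, n + k` are
`≡ a (mod q)`, lie in an interval of length `C`, and the `k` gaps between them satisfy
`F (gap (n + i)) < gap (n + j)` for all `i`, `j` with `lt i j`. -/
def Occurs {k : ℕ} (lt : Fin k → Fin k → Prop) : Prop :=
  ∀ (F : ℕ → ℕ) (q a : ℕ), 1 ≤ q → a.Coprime q → ∃ C : ℕ,
    {n : ℕ | (∀ i : Fin (k + 1), Nat.nth Nat.Prime (n + i) ≡ a [MOD q]) ∧
      Nat.nth Nat.Prime (n + k) ≤ Nat.nth Nat.Prime n + C ∧
      ∀ i j : Fin k, lt i j → F (gap (n + i)) < gap (n + j)}.Infinite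

/-- Six orderings of `k` gaps: the gap number `i < k` has the rank `o i` among the `k` gaps.
In words, with ranks counted from `1`: `1, …, k`; `1, …, k-2, k, k-1`; `k-2, …, 1, k, k-1`;
`2, …, k, 1`; `k-1, …, 1, k`; `1, k, 2, …, k-1`. -/
def orders (k : ℕ) : List (ℕ → ℕ) :=
  [fun i => i,
   fun i => if i + 2 < k then i else 2 * k - 3 - i,
   fun i => if i + 2 < k then k - 3 - i else 2 * k - 3 - i,
   fun i => if i + 1 < k then i + 1 else 0,
   fun i => if i + 1 < k then k - 2 - i else k - 1,
   fun i => if i = 0 then 0 else if i = 1 then k - 1 else i - 1]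

open Pool.Agent.TH29.GO

theorem hQ : Pool.Agent.H461R2.PD.Quarter := Pool.Agent.H362R2.CM.quarter

theorem occ {k : ℕ} {σ : ℕ → ℕ} (h : Forces 4 k σ) (lt : Fin k → Fin k → Prop)
    (hlt : ∀ i j, lt i j → σ i < σ j) : Occurs lt := by
  intro F q a hq ha
  obtain ⟨C, hC⟩ := occurs_of hQ h F q a hq ha
  refine ⟨C, hC.mono ?_⟩
  rintro n ⟨h1, h2, h3⟩
  exact ⟨fun i => h1 i (by omega), h2, fun i j hij => h3 i j i.2 j.2 (hlt i j hij)⟩

theorem forces_orders (k : ℕ) (hk : 3 ≤ k) : ∀ o ∈ orders k, Forces 4 k o := by
  intro o ho
  simp only [orders, List.mem_cons, List.not_mem_nil, or_false] at ho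
  rcases ho with rfl | rfl | rfl | rfl | rfl | rfl
  · -- increasing
    refine (forces1 4 (k - 1) (by omega)).restrict (k' := k) (by omega) ?_
    intro i j hi hj hij
    unfold pat1
    split_ifs <;> omega
  · refine (forces1 4 (k - 2) (by omega)).restrict (k' := k) (by omega) ?_
    intro i j hi hj hij
    unfold pat1
    split_ifs at hij ⊢ <;> omega
  · refine (forces2 4 (k - 2) (by omega)).restrict (k' := k) (by omega) ?_
    intro i j hi hj hij
    unfold pat2
    split_ifs at hij ⊢ <;> omega
  · refine (forces3 4 (k - 1) (by omega)).restrict (k' := k) (by omega) ?_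
    intro i j hi hj hij
    unfold pat3
    split_ifs at hij ⊢ <;> omega
  · refine (forces2 4 (k - 1) (by omega)).restrict (k' := k) (by omega) ?_
    intro i j hi hj hij
    unfold pat2
    split_ifs at hij ⊢ <;> omega
  · refine (forces4 4 (k - 2) (by omega)).restrict (k' := k) (by omega) ?_
    intro i j hi hj hij
    unfold pat4
    split_ifs at hij ⊢ <;> omega

theorem forces_mirror (k : ℕ) (hk : 3 ≤ k) : ∀ o ∈ orders k, Forces 4 k (fun i => o (k - 1 - i)) :=
  fun o ho => (forces_orders k hk o ho).mirror fun _ _ => rfl

/-- Orderings of consecutive prime gaps, see `Occurs`.  For every `k ≥ 3` the six orderings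
`orders k` of `k` consecutive gaps, and their reversals, occur (twelve orderings if `k ≥ 4`).
In particular every ordering of three consecutive gaps occurs, and every pattern of rises
(`ε l = true`) and falls (`ε l = false`) of four consecutive gaps occurs. -/
theorem result :
    (∀ k : ℕ, 3 ≤ k → ∀ o ∈ orders k, Occurs (fun i j : Fin k => o i < o j) ∧
      Occurs (fun i j : Fin k => o (k - 1 - i) < o (k - 1 - j))) ∧
    (∀ σ : Equiv.Perm (Fin 3), Occurs (fun i j : Fin 3 => σ i < σ j)) ∧
    (∀ ε : Fin 3 → Bool, Occurs (fun i j : Fin 4 => ∃ l : Fin 3,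
      (ε l = true ∧ i = l.castSucc ∧ j = l.succ) ∨
        (ε l = false ∧ i = l.succ ∧ j = l.castSucc))) := by
  refine ⟨?_, ?_, ?_⟩
  · intro k hk o ho
    exact ⟨occ (forces_orders k hk o ho) _ fun i j h => h,
      occ (forces_mirror k hk o ho) _ fun i j h => h⟩
  · intro σ
    have h3 := forces_orders 3 le_rfl
    have h3' := forces_mirror 3 le_rfl
    simp only [orders, List.forall_mem_cons, List.not_mem_nil, false_imp_iff, implies_true,
      and_true] at h3 h3'
    obtain ⟨f1, f2, f3, f4, f5, f6⟩ := h3
    obtain ⟨g1, g2, g3, g4, g5, g6⟩ := h3'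
    have key : (∀ i j : Fin 3, σ i < σ j → (i : ℕ) < j) ∨
        (∀ i j : Fin 3, σ i < σ j → (if (i : ℕ) + 2 < 3 then (i : ℕ) else 2 * 3 - 3 - i) <
          (if (j : ℕ) + 2 < 3 then (j : ℕ) else 2 * 3 - 3 - j)) ∨
        (∀ i j : Fin 3, σ i < σ j → (if (i : ℕ) + 1 < 3 then (i : ℕ) + 1 else 0) <
          (if (j : ℕ) + 1 < 3 then (j : ℕ) + 1 else 0)) ∨
        (∀ i j : Fin 3, σ i < σ j → (if (i : ℕ) + 1 < 3 then 3 - 2 - (i : ℕ) else 3 - 1) <
          (if (j : ℕ) + 1 < 3 then 3 - 2 - (j : ℕ) else 3 - 1)) ∨
        (∀ i j : Fin 3, σ i < σ j → 3 - 1 - (i : ℕ) < 3 - 1 - j) ∨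
        (∀ i j : Fin 3, σ i < σ j →
          (if 3 - 1 - (i : ℕ) + 1 < 3 then 3 - 2 - (3 - 1 - (i : ℕ)) else 3 - 1) <
          (if 3 - 1 - (j : ℕ) + 1 < 3 then 3 - 2 - (3 - 1 - (j : ℕ)) else 3 - 1)) := by
      revert σ
      decide
    rcases key with h | h | h | h | h | h
    · exact occ f1 _ h
    · exact occ f2 _ h
    · exact occ f4 _ h
    · exact occ f5 _ h
    · exact occ g1 _ h
    · exact occ g5 _ h
  · intro ε
    have h4 := forces_orders 4 (by norm_num)
    have h4' := forces_mirror 4 (by norm_num)
    simp only [orders, List.forall_mem_cons, List.not_mem_nil, false_imp_iff, implies_true,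
      and_true] at h4 h4'
    obtain ⟨f1, f2, f3, f4, f5, f6⟩ := h4
    obtain ⟨g1, g2, g3, g4, g5, g6⟩ := h4'
    have red : ∀ {τ : ℕ → ℕ}, Forces 4 4 τ → (∀ l : Fin 3, (ε l = true → τ (l : ℕ) < τ ((l : ℕ) + 1)) ∧
        (ε l = false → τ ((l : ℕ) + 1) < τ (l : ℕ))) →
        Occurs (fun i j : Fin 4 => ∃ l : Fin 3,
          (ε l = true ∧ i = l.castSucc ∧ j = l.succ) ∨
            (ε l = false ∧ i = l.succ ∧ j = l.castSucc)) := by
      intro τ hF hl
      refine occ hF _ ?_
      rintro i j ⟨l, ⟨h1, rfl, rfl⟩ | ⟨h1, rfl, rfl⟩⟩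
      · exact (hl l).1 h1
      · exact (hl l).2 h1
    rcases h0 : ε 0 with _ | _ <;> rcases h1 : ε 1 with _ | _ <;> rcases h2 : ε 2 with _ | _
    · -- > > >
      refine red g1 fun l => ?_
      fin_cases l <;> simp [h0, h1, h2]
    · -- > > <
      refine red f5 fun l => ?_
      fin_cases l <;> simp [h0, h1, h2]
    · -- > < >
      refine red f3 fun l => ?_
      fin_cases l <;> simp [h0, h1, h2]
    · -- > < <
      refine red g5 fun l => ?_
      fin_cases l <;> simp [h0, h1, h2]
    · -- < > >
      refine red g4 fun l => ?_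
      fin_cases l <;> simp [h0, h1, h2]
    · -- < > <
      refine red g3 fun l => ?_
      fin_cases l <;> simp [h0, h1, h2]
    · -- < < >
      refine red f2 fun l => ?_
      fin_cases l <;> simp [h0, h1, h2]
    · -- < < <
      refine red f1 fun l => ?_
      fin_cases l <;> simp [h0, h1, h2]

end Pool.Agent.Results.MP_3ec731_nt.GapOrderPatterns
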