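import Pool.Agent.TH779.Ord.Asym

/-!
# Almost all orders of consecutive prime gaps

Let `p₀ < p₁ < ...` be the primes. The conjecture predicts that each of the `k!` possible orders of
`k` consecutive prime gaps (without equal gaps) occurs infinitely often. The theorem: for ALL
`k ≥ 1` at least `k! exp (-150 k √(log k)) = (k!) ^ (1 - o(1))` orders occur infinitely often, and
they do so among the strings of `k + 1` consecutive primes which lie in a prescribed residue class
modulo `q`, uniformly in the class and in `q`.

Proof: (1) an averaging argument for the coloured sieve of Maynard and Tao: for `T` groups of `K`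
admissible forms (`K` large for given `T`) there are arbitrarily large `n` for which
`∑ g, (N_g - λ N_g (N_g - 1)) ≥ T / (40 λ)`, where `N_g` is the number of primes in the group `g`.
So almost all of the groups which are hit are hit exactly once. (2) The distances of the groups are
ordered like a given permutation `σ` of `N = T - 1` letters (they are powers of a large number), so
that the gaps between consecutive hits contain a large part of the pattern of `σ`. (3) Counting of
the permutations `σ`.
-/

set_option autoImplicit false

namespace Pool.Agent.Results.MP_3ec731_nt.OrdinalPatterns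

/-- The gap `p_(n+1) - p_n`, where `p₀ = 2, p₁ = 3, ...` are the primes. -/
noncomputable def gap (n : ℕ) : ℕ := Nat.nth Nat.Prime (n + 1) - Nat.nth Nat.Prime n

/-- The orders of `k` consecutive prime gaps which occur infinitely often among the primes
`≡ a (mod q)`: the permutations `π` of `{0, ..., k - 1}` such that for infinitely many `n` the
primes `p_n, ..., p_(n+k)` are all `≡ a (mod q)` and the `k` gaps between them are ordered like
`π 0, ..., π (k - 1)` (so they are different). -/
def Orders (q a k : ℕ) : Set (Equiv.Perm (Fin k)) :=
  {π | ∀ N : ℕ, ∃ n > N, (∀ i ≤ k, Nat.nth Nat.Prime (n + i) ≡ a [MOD q]) ∧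
    ∀ i j : Fin k, π i < π j ↔ gap (n + i) < gap (n + j)}

/-- For all `k ≥ 1`, all `q ≥ 1` and all `a` prime to `q` at least `k! exp (-150 k √(log k))` of the
`k!` orders of `k` consecutive prime gaps occur infinitely often among the strings of `k + 1`
consecutive primes `≡ a (mod q)`. -/
theorem result : ∀ k q a : ℕ, 1 ≤ k → 1 ≤ q → Nat.Coprime a q →
    (k.factorial : ℝ) * Real.exp (-(150 * k * Real.sqrt (Real.log k))) ≤
      ((Orders q a k).ncard : ℝ) :=
  fun _k q a hk hq haq => Pool.Agent.TH779.Ord.explicit hk q a hq haq

end Pool.Agent.Results.MP_3ec731_nt.OrdinalPatterns
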