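import Pool.Agent.H358R5.MainC
import Pool.Agent.TH779.Shat.PatMain

/-!
# The number of patterns of consecutive primes, uniformly in the number of primes

Let `N(D, k)` be the number of patterns of `k + 1` consecutive primes of diameter at most `D` which
occur infinitely often. The conjecture predicts all admissible patterns, and `N(D, k)` is of the
order of magnitude `D ^ k` for fixed `k`. The theorem: for all large `D` and ALL `k ≥ 1` with
`exp (4 k + 5) ≤ D / (2 log D)`, that is for `k` up to `(1/4 - o(1)) log D`,
`N(D, k) ≥ (D / (2 log D)) ^ k exp (-(k + 1) (4 k + 5))`, with an absolute constant `D₀`. The same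
holds for the patterns of consecutive primes all of which lie in an arbitrary residue class modulo
`q`, with the same `D₀` for all `q`. With `k` about `(log D) / 8` this shows that at least
`exp ((1/16 - o(1)) log² D)` words of length `D + 1` occur infinitely often in the characteristic
function of the primes.

Proof: the theorem of Maynard and Tao with explicit numbers (`Pool.Agent.H358R5.forms_many` of the
starting files) and congruences give a pattern of `k + 1` consecutive primes inside every subset
of `exp (4 k + 5)` elements of the set of the primes between `D / 10` and `D`; double counting.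
-/

set_option autoImplicit false

namespace Pool.Agent.Results.MP_3ec731_nt.PatternsOfAllSizes

open Filter

/-- The numbers `n + q h`, `h ∈ P`, are primes, and there is no other prime from `n` to the largest
of them. -/
def Consecutive (q : ℕ) (P : Finset ℕ) (n : ℕ) : Prop :=
  (∀ h ∈ P, (n + q * h).Prime) ∧
    ∀ y : ℕ, (n + y).Prime → (∃ h ∈ P, y ≤ q * h) → ∃ h ∈ P, y = q * h

/-- The number of `n ≤ x`, `n ≡ a (mod q)`, for which the `n + q h`, `h ∈ P`, are consecutive
primes. -/
noncomputable def count (q a : ℕ) (P : Finset ℕ) (x : ℝ) : ℕ :=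
  Set.ncard {n : ℕ | (n : ℝ) ≤ x ∧ n ≡ a [MOD q] ∧ Consecutive q P n}

/-- The set of the patterns `P` of `k + 1` integers, `0 ∈ P ⊆ [0, D]`, such that for every `η > 0`
and arbitrarily large `x` at least `x ^ (1 - η)` integers `n ≤ x`, `n ≡ a (mod q)`, are such that
the numbers `n + q h`, `h ∈ P`, are consecutive primes. -/
def Frequent (q a D k : ℕ) : Set (Finset ℕ) :=
  {P | 0 ∈ P ∧ P.card = k + 1 ∧ (∀ h ∈ P, h ≤ D) ∧
    ∀ η : ℝ, 0 < η → ∃ᶠ x : ℝ in atTop, x ^ (1 - η) ≤ count q a P x}

/-- There is `D₀` such that for all `D ≥ D₀`, all `k ≥ 1` with `exp (4 k + 5) ≤ D / (2 log D)`, all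
moduli `q` and all `a` prime to `q` there are at least
`(D / (2 log D)) ^ k exp (-(k + 1) (4 k + 5))` frequent patterns of `k + 1` consecutive primes. -/
theorem result : ∃ D₀ : ℕ, ∀ D : ℕ, D₀ ≤ D → ∀ k : ℕ, 1 ≤ k →
    Real.exp (4 * k + 5) ≤ D / (2 * Real.log D) → ∀ q a : ℕ, 1 ≤ q → Nat.Coprime a q →
    (D / (2 * Real.log D)) ^ k * Real.exp (-((k + 1) * (4 * k + 5))) ≤
      ((Frequent q a D k).ncard : ℝ) :=
  Pool.Agent.TH779.Shat.pat_main Pool.Agent.H358R5.forms_many

end Pool.Agent.Results.MP_3ec731_nt.PatternsOfAllSizes
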